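import Mathlib

set_option autoImplicit false

/-!
# Task K7: the recursion for the weights by iteration

Let `Ps` be a list without duplicates and `lt` a relation on its members which is transitive and irreflexive. If `W` satisfies
`W P = F P - ∑ over Q ∈ Ps with lt Q P of W Q` for all `P ∈ Ps` then `Ps.length` iterations of the step, starting with zeros, give the list
of the `W P`. Proof: after `n` iterations the list is `Ps.map V_n` with `V_n P = W P` for all `P ∈ Ps` with fewer than `n` members `Q ∈ Ps`
below (`lt Q P`); the number of members below `P` is less than `Ps.length` (`P` itself is not below `P`), and if `lt Q P` then the number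
below `Q` is smaller than the number below `P` (transitive, irreflexive).
`List.zipWith f Ps (Ps.map V) = Ps.map (fun Q => f Q (V Q))`.
-/

namespace Pool.Agent.MP_b5e4d4_co.FT

/-- the step -/
def kstep {α : Type} (lt : α → α → Bool) (F : α → ℤ) (Ps : List α) (W : List ℤ) : List ℤ :=
  Ps.map fun P => F P - (List.zipWith (fun Q w => if lt Q P = true then w else 0) Ps W).sum

private theorem countP_lt {α : Type} (p q : α → Bool) (l : List α)
    (h : ∀ x ∈ l, p x = true → q x = true) {y : α} (hy : y ∈ l) (h1 : p y = false)
    (h2 : q y = true) : l.countP p < l.countP q := by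
  induction l with
  | nil => simp at hy
  | cons a l ih =>
    have hle : l.countP p ≤ l.countP q :=
      List.countP_mono_left fun x hx => h x (List.mem_cons_of_mem _ hx)
    rw [List.countP_cons, List.countP_cons]
    rcases List.mem_cons.1 hy with rfl | hy'
    · rw [h1, h2]
      simp
      omega
    · have h3 := ih (fun x hx => h x (List.mem_cons_of_mem _ hx)) hy'
      have h4 := h a List.mem_cons_self
      rcases hpa : p a with _ | _
      · split_ifs <;> simp_all
      · rw [h4 hpa]
        simpa using h3

private theorem kstep_map {α : Type} (lt : α → α → Bool) (F : α → ℤ) (Ps : List α) (V : α → ℤ) :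
    kstep lt F Ps (Ps.map V) =
      Ps.map fun P => F P - (Ps.map fun Q => if lt Q P = true then V Q else 0).sum := by
  unfold kstep
  refine List.map_congr_left fun P _ => ?_
  congr 2
  rw [List.zipWith_map_right]
  exact List.zipWith_self

theorem kstep_iter {α : Type} (lt : α → α → Bool) (F : α → ℤ) (Ps : List α)
    (hnd : Ps.Nodup)
    (htr : ∀ P ∈ Ps, ∀ Q ∈ Ps, ∀ R ∈ Ps, lt P Q = true → lt Q R = true → lt P R = true)
    (hir : ∀ P ∈ Ps, lt P P = false) (W : α → ℤ)
    (hW : ∀ P ∈ Ps, W P = F P - (Ps.map fun Q => if lt Q P = true then W Q else 0).sum) :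
    (kstep lt F Ps)^[Ps.length] (Ps.map fun _ => 0) = Ps.map W := by
  have key : ∀ n : ℕ, ∃ V : α → ℤ, (kstep lt F Ps)^[n] (Ps.map fun _ => 0) = Ps.map V ∧
      ∀ P ∈ Ps, Ps.countP (fun Q => lt Q P) < n → V P = W P := by
    intro n
    induction n with
    | zero => exact ⟨fun _ => 0, rfl, fun P _ h => absurd h (Nat.not_lt_zero _)⟩
    | succ n ih =>
      obtain ⟨V, hV1, hV2⟩ := ih
      refine ⟨fun P => F P - (Ps.map fun Q => if lt Q P = true then V Q else 0).sum, ?_, ?_⟩
      · rw [Function.iterate_succ_apply', hV1, kstep_map]
      · intro P hP hlt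
        rw [hW P hP]
        have e : (Ps.map fun Q => if lt Q P = true then V Q else 0) =
            Ps.map fun Q => if lt Q P = true then W Q else 0 := by
          refine List.map_congr_left fun Q hQ => ?_
          split_ifs with hQP
          · refine hV2 Q hQ ?_
            have h1 : Ps.countP (fun R => lt R Q) < Ps.countP (fun R => lt R P) :=
              countP_lt _ _ Ps (fun R hR hRQ => htr R hR Q hQ P hP hRQ hQP) hQ (hir Q hQ) hQP
            omega
          · rfl
        change F P - (Ps.map fun Q => if lt Q P = true then V Q else 0).sum = _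
        rw [e]
  obtain ⟨V, hV1, hV2⟩ := key Ps.length
  rw [hV1]
  refine List.map_congr_left fun P hP => hV2 P hP ?_
  refine lt_of_le_of_ne List.countP_le_length fun h => ?_
  have h1 := List.countP_eq_length.1 h P hP
  rw [hir P hP] at h1
  exact Bool.noConfusion h1

end Pool.Agent.MP_b5e4d4_co.FT
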