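import Pool.Agent.Lib.MP_b5e4d4_co.FP.Defs

set_option autoImplicit false

/-!
# Task S1: lower bound for the number of self-converse digraphs, and comparison of the growth

`SC_ge`: a symmetric digraph (`D (rev e) = D e`) is self-converse (`π = 1`); there are `2 ^ (p (p - 1) / 2)` of them (functions on the pairs
`u < v`), so the number is at least this.
`growth`: `C (p + 1) (size p + 1) ^ 2 ≤ ε p (p - 1) / 2` for large `p` (`size p ≤ log2 p + 1`), so `2 ^ (C (p+1) (size p + 1)^2) ≤ (2 ^ (p (p-1)/2)) ^ ε`.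
`card_arcs_eq`: a loopless arc set is a Boolean function on the ordered pairs of different points (compare `arcEquiv` in
Pool/Agent/Results/MP_b5e4d4_co/TwoTerm.lean).
-/

namespace Pool.Agent.MP_b5e4d4_co.FT

open Pool.Agent.MP_b5e4d4_co.FP

/-- the symmetric digraph given by a function on the unordered pairs -/
private def S1_D {p : ℕ} (F : {a : Sym2 (Fin p) // ¬ a.IsDiag} → Bool) : Arc (Fin p) → Bool :=
  fun e => F ⟨s(e.1.1, e.1.2), fun h => e.2 (Sym2.mk_isDiag_iff.1 h)⟩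

private theorem S1_SC {p : ℕ} (F : {a : Sym2 (Fin p) // ¬ a.IsDiag} → Bool) : SC (S1_D F) := by
  refine ⟨1, ?_⟩
  intro e
  unfold S1_D
  congr 1
  refine Subtype.ext ?_
  exact Sym2.eq_swap

theorem SC_ge (p : ℕ) : 2 ^ (p * (p - 1) / 2) ≤ Nat.card {D : Arc (Fin p) → Bool // SC D} := by
  classical
  have h1 : Nat.card ({a : Sym2 (Fin p) // ¬ a.IsDiag} → Bool) = 2 ^ (p * (p - 1) / 2) := by
    rw [Nat.card_eq_fintype_card, Fintype.card_fun, Fintype.card_bool, Sym2.card_subtype_not_diag,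
      Fintype.card_fin, Nat.choose_two_right]
  rw [← h1]
  refine Nat.card_le_card_of_injective (fun F => (⟨S1_D F, S1_SC F⟩ :
    {D : Arc (Fin p) → Bool // SC D})) ?_
  intro F F' h
  have h2 : S1_D F = S1_D F' := congrArg Subtype.val h
  funext a
  obtain ⟨a, ha⟩ := a
  induction a using Sym2.ind with
  | _ u v =>
    have huv : u ≠ v := fun h => ha (Sym2.mk_isDiag_iff.2 h)
    exact congrFun h2 ⟨(u, v), huv⟩

theorem growth (C : ℕ) (ε : ℝ) (hε : 0 < ε) :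
    ∀ᶠ p : ℕ in Filter.atTop,
      ((2 ^ (C * (p + 1) * (Nat.size p + 1) ^ 2) : ℕ) : ℝ) ≤ ((2 ^ (p * (p - 1) / 2) : ℕ) : ℝ) ^ ε := by
  have h1 := (Real.isLittleO_pow_log_id_atTop (n := 2)).bound
    (show (0 : ℝ) < ε / (128 * (C + 1)) by positivity)
  have h2 := tendsto_natCast_atTop_atTop (R := ℝ) |>.eventually h1
  filter_upwards [h2, Filter.eventually_ge_atTop 3] with p hp hp3
  have hp3' : (3 : ℝ) ≤ (p : ℝ) := by exact_mod_cast hp3
  have hlog1 : (1 : ℝ) ≤ Real.log p := by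
    rw [Real.le_log_iff_exp_le (by linarith)]
    exact (Real.exp_one_lt_d9.le.trans (by norm_num)).trans hp3'
  have hsz : ((Nat.size p : ℕ) : ℝ) + 1 ≤ 4 * Real.log p := by
    have h3 : 2 ^ (Nat.size p - 1) ≤ p := by
      rw [← Nat.lt_size]
      have : 0 < Nat.size p := Nat.size_pos.2 (by omega)
      omega
    have h4 : ((Nat.size p - 1 : ℕ) : ℝ) * Real.log 2 ≤ Real.log p := by
      rw [← Real.log_pow]
      exact Real.log_le_log (by positivity) (by exact_mod_cast h3)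
    have h5 : (0.69 : ℝ) ≤ Real.log 2 := by
      have := Real.log_two_gt_d9
      linarith
    have h6 : ((Nat.size p : ℕ) : ℝ) ≤ ((Nat.size p - 1 : ℕ) : ℝ) + 1 := by
      exact_mod_cast (by omega : Nat.size p ≤ Nat.size p - 1 + 1)
    have h7 : (0 : ℝ) ≤ ((Nat.size p - 1 : ℕ) : ℝ) := by positivity
    nlinarith
  have hlog0 : (0 : ℝ) ≤ Real.log p := by linarith
  have hp' : Real.log p ^ 2 ≤ ε / (128 * (C + 1)) * p := by
    have := hp
    simp only [id, norm_pow, Real.norm_eq_abs, sq_abs] at this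
    rwa [abs_of_nonneg (by linarith : (0 : ℝ) ≤ (p : ℝ))] at this
  have hsq : (((Nat.size p : ℕ) : ℝ) + 1) ^ 2 ≤ 16 * Real.log p ^ 2 := by
    have h0 : (0 : ℝ) ≤ ((Nat.size p : ℕ) : ℝ) + 1 := by positivity
    nlinarith
  have hb : ((p * (p - 1) / 2 : ℕ) : ℝ) = (p : ℝ) * ((p : ℝ) - 1) / 2 := by
    have h3 : 2 * (p * (p - 1) / 2) = p * (p - 1) := by
      refine Nat.mul_div_cancel' ?_
      exact (Nat.even_mul_pred_self p).two_dvd
    have h4 : (2 : ℝ) * ((p * (p - 1) / 2 : ℕ) : ℝ) = (p : ℝ) * ((p : ℝ) - 1) := by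
      have h5 : ((2 * (p * (p - 1) / 2) : ℕ) : ℝ) = ((p * (p - 1) : ℕ) : ℝ) := by rw [h3]
      rw [Nat.cast_mul, Nat.cast_mul, Nat.cast_sub (by omega)] at h5
      push_cast at h5
      exact_mod_cast h5
    linarith
  have key : ((C * (p + 1) * (Nat.size p + 1) ^ 2 : ℕ) : ℝ) ≤ ((p * (p - 1) / 2 : ℕ) : ℝ) * ε := by
    rw [hb]
    push_cast
    have hC : (0 : ℝ) ≤ (C : ℝ) := by positivity
    have e1 : (C : ℝ) * ((p : ℝ) + 1) * (((Nat.size p : ℕ) : ℝ) + 1) ^ 2 ≤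
        (C : ℝ) * ((p : ℝ) + 1) * (16 * Real.log p ^ 2) :=
      mul_le_mul_of_nonneg_left hsq (by positivity)
    have e2 : (C : ℝ) * ((p : ℝ) + 1) * (16 * Real.log p ^ 2) ≤
        (C : ℝ) * ((p : ℝ) + 1) * (16 * (ε / (128 * (C + 1)) * p)) :=
      mul_le_mul_of_nonneg_left (by linarith) (by positivity)
    have e3 : (C : ℝ) * ((p : ℝ) + 1) * (16 * (ε / (128 * (C + 1)) * p)) =
        (C / (C + 1)) * (((p : ℝ) + 1) * (ε * p / 8)) := by
      field_simp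
      ring
    have e4 : (C / (C + 1) : ℝ) ≤ 1 := by
      rw [div_le_one (by positivity)]
      linarith
    have e5 : (C / (C + 1) : ℝ) * (((p : ℝ) + 1) * (ε * p / 8)) ≤
        1 * (((p : ℝ) + 1) * (ε * p / 8)) :=
      mul_le_mul_of_nonneg_right e4 (by positivity)
    have e6 : ((p : ℝ) + 1) * (ε * p / 8) ≤ (p : ℝ) * ((p : ℝ) - 1) / 2 * ε := by
      have : (0 : ℝ) ≤ ε * p := by positivity
      nlinarith
    linarith
  rw [Nat.cast_pow, Nat.cast_pow, Nat.cast_ofNat, ← Real.rpow_natCast 2 (p * (p - 1) / 2),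
    ← Real.rpow_mul (by norm_num), ← Real.rpow_natCast 2 (C * (p + 1) * (Nat.size p + 1) ^ 2)]
  exact Real.rpow_le_rpow_of_exponent_le (by norm_num) key

theorem card_arcs_eq (p : ℕ) :
    Nat.card {A : Finset (Fin p × Fin p) // (∀ e ∈ A, e.1 ≠ e.2) ∧
        ∃ σ : Equiv.Perm (Fin p), ∀ u v : Fin p, (u, v) ∈ A ↔ (σ v, σ u) ∈ A} =
      Nat.card {D : Arc (Fin p) → Bool // SC D} := by
  classical
  symm
  let g : (Arc (Fin p) → Bool) → Finset (Fin p × Fin p) := fun D =>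
    Finset.univ.filter fun e => ∃ h : e.1 ≠ e.2, D ⟨e, h⟩ = true
  have hg : ∀ D (u v : Fin p), (u, v) ∈ g D ↔ ∃ h : u ≠ v, D ⟨(u, v), h⟩ = true := by
    intro D u v
    simp only [g, Finset.mem_filter, Finset.mem_univ, true_and]
  have h1 : ∀ D, SC D → (∀ e ∈ g D, e.1 ≠ e.2) ∧
      ∃ σ : Equiv.Perm (Fin p), ∀ u v : Fin p, (u, v) ∈ g D ↔ (σ v, σ u) ∈ g D := by
    rintro D ⟨π, hπ⟩
    refine ⟨?_, π, ?_⟩
    · rintro ⟨u, v⟩ he
      exact ((hg D u v).1 he).1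
    · intro u v
      rw [hg, hg]
      constructor
      · rintro ⟨h, hD⟩
        refine ⟨fun h' => h (π.injective h').symm, ?_⟩
        rw [← hD]
        exact hπ ⟨(u, v), h⟩
      · rintro ⟨h, hD⟩
        have huv : u ≠ v := fun h' => h (by rw [h'])
        refine ⟨huv, ?_⟩
        rw [← hD]
        exact (hπ ⟨(u, v), huv⟩).symm
  refine Nat.card_eq_of_bijective (fun D : {D : Arc (Fin p) → Bool // SC D} =>
    (⟨g D.1, h1 D.1 D.2⟩ : {A : Finset (Fin p × Fin p) // (∀ e ∈ A, e.1 ≠ e.2) ∧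
        ∃ σ : Equiv.Perm (Fin p), ∀ u v : Fin p, (u, v) ∈ A ↔ (σ v, σ u) ∈ A})) ⟨?_, ?_⟩
  · rintro ⟨D, hD⟩ ⟨D', hD'⟩ h
    have h2 : g D = g D' := congrArg Subtype.val h
    refine Subtype.ext (funext ?_)
    rintro ⟨⟨u, v⟩, huv⟩
    have h3 := (hg D u v).symm.trans ((by rw [h2] : (u, v) ∈ g D ↔ (u, v) ∈ g D').trans (hg D' u v))
    have h4 : D ⟨(u, v), huv⟩ = true ↔ D' ⟨(u, v), huv⟩ = true :=
      ⟨fun h => (h3.1 ⟨huv, h⟩).2, fun h => (h3.2 ⟨huv, h⟩).2⟩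
    exact Bool.eq_iff_iff.2 h4
  · rintro ⟨A, hA, σ, hσ⟩
    obtain ⟨f, hf⟩ : ∃ f : Arc (Fin p) → Bool, ∀ e, f e = true ↔ e.1 ∈ A :=
      ⟨fun e => decide (e.1 ∈ A), fun e => decide_eq_true_iff⟩
    have h2 : g f = A := by
      refine Finset.ext ?_
      rintro ⟨u, v⟩
      refine (hg f u v).trans ?_
      constructor
      · rintro ⟨h, h'⟩
        exact (hf _).1 h'
      · intro h
        exact ⟨hA _ h, (hf _).2 h⟩
    refine ⟨⟨f, σ, ?_⟩, Subtype.ext h2⟩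
    rintro ⟨⟨u, v⟩, huv⟩
    refine Bool.eq_iff_iff.2 ?_
    rw [hf, hf]
    exact (hσ u v).symm

end Pool.Agent.MP_b5e4d4_co.FT
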